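import Pool.Agent.Helper66.PD.Stmts

/-!
Row CVX of project PD: the bags which contain an element are consecutive.
-/

set_option autoImplicit false

namespace Pool.Agent.Helper66.PD

/-- the value of a word -/
def cvx_vl {k n : ℕ} (x : Fin k → Fin n) : ℕ := ∑ i, (x i : ℕ) * n ^ (i : ℕ)

theorem cvx_vl_lt {n : ℕ} : ∀ (k : ℕ) (x y : Fin k → Fin n) (j : Fin k),
    (∀ i, j < i → x i = y i) → x j < y j → cvx_vl x < cvx_vl y := by
  intro k
  induction k with
  | zero => intro x y j; exact j.elim0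
  | succ k ih =>
    intro x y j hag hlt
    have hv : ∀ z : Fin (k + 1) → Fin n, cvx_vl z = (z 0 : ℕ) + n * cvx_vl (fun i => z i.succ) := by
      intro z
      unfold cvx_vl
      rw [Fin.sum_univ_succ, Finset.mul_sum]
      simp only [Fin.val_zero, pow_zero, mul_one, Fin.val_succ]
      congr 1
      refine Finset.sum_congr rfl fun i _ => ?_
      ring
    rw [hv x, hv y]
    rcases Fin.eq_zero_or_eq_succ j with hj | ⟨j', hj⟩
    · subst hj
      have ht : (fun i : Fin k => x i.succ) = fun i : Fin k => y i.succ := by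
        funext i
        exact hag _ (Fin.succ_pos i)
      rw [ht]
      exact Nat.add_lt_add_right hlt _
    · subst hj
      have h1 := ih (fun i => x i.succ) (fun i => y i.succ) j'
        (fun i hi => hag _ (Fin.succ_lt_succ_iff.mpr hi)) hlt
      have h2 : (x 0 : ℕ) < n := (x 0).2
      calc (x 0 : ℕ) + n * cvx_vl (fun i => x i.succ)
          < n + n * cvx_vl (fun i => x i.succ) := Nat.add_lt_add_right h2 _
        _ = n * (cvx_vl (fun i => x i.succ) + 1) := by ring
        _ ≤ n * cvx_vl (fun i => y i.succ) := Nat.mul_le_mul_left _ h1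
        _ ≤ (y 0 : ℕ) + n * cvx_vl (fun i => y i.succ) := Nat.le_add_left _ _

theorem cvx_key {k n : ℕ} (j : Fin k) (c c' c'' : Fin k → Fin n) (h1 : cvx_vl c ≤ cvx_vl c')
    (h2 : cvx_vl c' ≤ cvx_vl c'') (hag : ag j c c'') :
    ag j c' c ∧ c j ≤ c' j ∧ c' j ≤ c'' j := by
  have h3 : ag j c' c := by
    by_contra hne
    unfold ag at hne
    push Not at hne
    obtain ⟨i0, hi0, hne0⟩ := hne
    obtain ⟨i, hi, hmax⟩ := Finset.exists_max_image
      (Finset.univ.filter (fun i : Fin k => j < i ∧ c' i ≠ c i)) id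
      ⟨i0, by simp [hi0, hne0]⟩
    rw [Finset.mem_filter] at hi
    have habove : ∀ i', i < i' → c' i' = c i' := by
      intro i' hi'
      by_contra h
      have := hmax i' (by
        rw [Finset.mem_filter]
        exact ⟨Finset.mem_univ _, hi.2.1.trans hi', h⟩)
      exact absurd hi' (not_lt.mpr this)
    rcases lt_or_gt_of_ne hi.2.2 with h | h
    · have := cvx_vl_lt k c' c i habove h
      omega
    · have h4 : c'' i < c' i := by
        rw [← hag i hi.2.1]; exact h
      have := cvx_vl_lt k c'' c' i (fun i' hi' => by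
        rw [← hag i' (hi.2.1.trans hi'), habove i' hi']) h4
      omega
  refine ⟨h3, ?_, ?_⟩
  · by_contra h
    have := cvx_vl_lt k c' c j h3 (not_le.mp h)
    omega
  · by_contra h
    have := cvx_vl_lt k c'' c' j (fun i hi => by rw [← hag i hi, h3 i hi]) (not_le.mp h)
    omega

theorem st_CVX : ST_CVX := by
  intro k n u c c' c'' h1 h2 hc hc''
  have e1 : cvx_vl c ≤ cvx_vl c' := by
    have := Fin.le_def.mp h1
    rwa [finFunctionFinEquiv_apply, finFunctionFinEquiv_apply] at this
  have e2 : cvx_vl c' ≤ cvx_vl c'' := by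
    have := Fin.le_def.mp h2
    rwa [finFunctionFinEquiv_apply, finFunctionFinEquiv_apply] at this
  cases u with
  | X a =>
    have h3 : a = c := hc
    have h4 : a = c'' := hc''
    have h5 : c = c' := by
      apply finFunctionFinEquiv.injective
      refine le_antisymm h1 ?_
      rw [← h3, h4]
      exact h2
    exact h3.trans h5
  | Y a =>
    have h3 : a = c := hc
    have h4 : a = c'' := hc''
    have h5 : c = c' := by
      apply finFunctionFinEquiv.injective
      refine le_antisymm h1 ?_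
      rw [← h3, h4]
      exact h2
    exact h3.trans h5
  | R j b =>
    obtain ⟨ha, hv⟩ : ag j c b ∧ ((c j : ℕ) = b j ∨ (c j : ℕ) = b j + 1) := hc
    obtain ⟨ha', hv'⟩ : ag j c'' b ∧ ((c'' j : ℕ) = b j ∨ (c'' j : ℕ) = b j + 1) := hc''
    obtain ⟨h3, h4, h5⟩ := cvx_key j c c' c'' e1 e2
      (fun i hi => by rw [ha i hi, ha' i hi])
    have h6 : (c j : ℕ) ≤ c' j := h4
    have h7 : (c' j : ℕ) ≤ c'' j := h5
    refine ⟨ag_trans h3 ha, ?_⟩
    omega
  | L j b =>
    obtain ⟨ha, hv⟩ : ag j c b ∧ ((c j : ℕ) = b j ∨ (c j : ℕ) + 1 = b j) := hc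
    obtain ⟨ha', hv'⟩ : ag j c'' b ∧ ((c'' j : ℕ) = b j ∨ (c'' j : ℕ) + 1 = b j) := hc''
    obtain ⟨h3, h4, h5⟩ := cvx_key j c c' c'' e1 e2
      (fun i hi => by rw [ha i hi, ha' i hi])
    have h6 : (c j : ℕ) ≤ c' j := h4
    have h7 : (c' j : ℕ) ≤ c'' j := h5
    refine ⟨ag_trans h3 ha, ?_⟩
    omega

end Pool.Agent.Helper66.PD
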